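import Mathlib

set_option autoImplicit false

namespace Pool.Agent.Results.MP_d1ccd0_al.InfiniteCatenary

open Classical in
/-- The distance of two factorizations (multisets of atoms): the larger of the lengths of what
remains of them after their common part has been removed. -/
noncomputable def fdist {α : Type*} (z z' : Multiset α) : ℕ :=
  max (Multiset.card (z - z')) (Multiset.card (z' - z))

section Definitions

variable {H : Type*} [CommMonoid H]

/-- The set of factorizations of `a` : multisets of atoms of the reduced monoid with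
product (the class of) `a`. -/
def Z (a : H) : Set (Multiset (Associates H)) :=
  {z | (∀ x ∈ z, Irreducible x) ∧ z.prod = Associates.mk a}

/-- The set of lengths of `a`. -/
def L (a : H) : Set ℕ := {k | ∃ z ∈ Z a, Multiset.card z = k}

/-- The set of factorizations of `a` of length `k`. -/
def Zk (a : H) (k : ℕ) : Set (Multiset (Associates H)) := {z | z ∈ Z a ∧ Multiset.card z = k}

/-- `z` and `z'` are joined by a monotone `N`-chain of factorizations of `a`. -/
def MonotoneChain (a : H) (N : ℕ∞) (z z' : Multiset (Associates H)) : Prop :=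
  ∃ (r : ℕ) (c : ℕ → Multiset (Associates H)),
    c 0 = z ∧ c r = z' ∧ (∀ i ≤ r, c i ∈ Z a) ∧
    (∀ i < r, (fdist (c i) (c (i + 1)) : ℕ∞) ≤ N) ∧
    ((∀ i < r, Multiset.card (c i) ≤ Multiset.card (c (i + 1))) ∨
      (∀ i < r, Multiset.card (c (i + 1)) ≤ Multiset.card (c i)))

/-- The equal catenary degree of `a`. -/
noncomputable def cEqAt (a : H) : ℕ∞ :=
  sInf {N : ℕ∞ | ∀ z ∈ Z a, ∀ z' ∈ Z a, Multiset.card z = Multiset.card z' →
    MonotoneChain a N z z'}

/-- `k < l` are adjacent lengths of `a`. -/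
def AdjacentLengths (a : H) (k l : ℕ) : Prop :=
  k ∈ L a ∧ l ∈ L a ∧ k < l ∧ ∀ m ∈ L a, ¬ (k < m ∧ m < l)

/-- The distance of two sets of factorizations. -/
noncomputable def sdist {α : Type*} (X Y : Set (Multiset α)) : ℕ∞ :=
  ⨅ x ∈ X, ⨅ y ∈ Y, (fdist x y : ℕ∞)

/-- The adjacent catenary degree of `a`. -/
noncomputable def cAdjAt (a : H) : ℕ∞ :=
  ⨆ (k : ℕ) (l : ℕ) (_ : AdjacentLengths a k l), sdist (Zk a k) (Zk a l)

variable (H) in
/-- The equal catenary degree of the monoid `H`. -/
noncomputable def cEq : ℕ∞ := ⨆ a : H, cEqAt a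

variable (H) in
/-- The adjacent catenary degree of the monoid `H`. -/
noncomputable def cAdj : ℕ∞ := ⨆ a : H, cAdjAt a

variable (H) in
/-- The monotone catenary degree of the monoid `H`. -/
noncomputable def cMon : ℕ∞ := max (cEq H) (cAdj H)

/-- `H` is a conductor submonoid of `F`: every non-invertible element `a` of `H` satisfies
`a F ⊆ H`. -/
def IsConductorSubmonoid {F : Type*} [CommMonoid F] (H : Submonoid F) : Prop :=
  ∀ a : H, ¬ IsUnit a → ∀ f : F, (a : F) * f ∈ H

end Definitions

/-! ### The monoid -/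

/-- Membership in the ideal. -/
def InI (v : Fin 4 → ℕ) : Prop :=
  2 ≤ v 2 + v 3 ∨ (1 ≤ v 2 ∧ 2 ≤ v 0 + v 1) ∨ (1 ≤ v 3 ∧ 1 ≤ v 0 ∧ 1 ≤ v 1)

theorem InI.add {v : Fin 4 → ℕ} (h : InI v) (w : Fin 4 → ℕ) : InI (v + w) := by
  simp only [InI, Pi.add_apply] at *
  omega

theorem not_InI_zero : ¬ InI 0 := by
  simp [InI]

/-- The submonoid `{0} ∪ I` of `ℕ^4`. -/
def HH : Submonoid (Multiplicative (Fin 4 → ℕ)) where
  carrier := {v | v = 1 ∨ InI (Multiplicative.toAdd v)}
  one_mem' := Or.inl rfl
  mul_mem' := by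
    rintro a b (rfl | ha) hb
    · simpa using hb
    · exact Or.inr (ha.add _)

/-- the element of `HH` with given exponents -/
def elt (v : Fin 4 → ℕ) (h : InI v) : HH := ⟨Multiplicative.ofAdd v, Or.inr h⟩

/-- exponents of an element -/
def ex (a : HH) : Fin 4 → ℕ := Multiplicative.toAdd (a : Multiplicative (Fin 4 → ℕ))

theorem ex_mul (a b : HH) : ex (a * b) = ex a + ex b := rfl
theorem ex_one : ex 1 = 0 := rfl
theorem ex_elt (v : Fin 4 → ℕ) (h : InI v) : ex (elt v h) = v := rfl

theorem ex_inj {a b : HH} (h : ex a = ex b) : a = b :=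
  Subtype.ext (Multiplicative.toAdd.injective h)

theorem add_eq_zero4 {v w : Fin 4 → ℕ} (h : v + w = 0) : v = 0 := by
  ext i
  have := congrFun h i
  simp only [Pi.add_apply, Pi.zero_apply] at this ⊢
  omega

theorem eq_of_associated {a b : HH} (h : Associated a b) : a = b := by
  obtain ⟨u, rfl⟩ := h
  have h1 : ex (u : HH) + ex ((u⁻¹ : HHˣ) : HH) = 0 := by
    rw [← ex_mul, Units.mul_inv, ex_one]
  have h2 : (u : HH) = 1 := ex_inj (by rw [add_eq_zero4 h1, ex_one])
  rw [h2, mul_one]

/-- exponents of a class -/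
noncomputable def val (x : Associates HH) : Fin 4 → ℕ := ex (Quotient.out x)

theorem val_mk (a : HH) : val (Associates.mk a) = ex a := by
  have h : Associates.mk (Quotient.out (Associates.mk a)) = Associates.mk a :=
    Quotient.out_eq _
  rw [Associates.mk_eq_mk_iff_associated] at h
  rw [val, eq_of_associated h]

theorem val_mul (x y : Associates HH) : val (x * y) = val x + val y := by
  obtain ⟨a, rfl⟩ := Associates.mk_surjective x
  obtain ⟨b, rfl⟩ := Associates.mk_surjective y
  rw [Associates.mk_mul_mk, val_mk, val_mk, val_mk, ex_mul]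

theorem val_one : val 1 = 0 := by
  rw [← Associates.mk_one, val_mk, ex_one]

theorem val_inj {x y : Associates HH} (h : val x = val y) : x = y := by
  obtain ⟨a, rfl⟩ := Associates.mk_surjective x
  obtain ⟨b, rfl⟩ := Associates.mk_surjective y
  rw [val_mk, val_mk] at h
  rw [ex_inj h]

theorem val_prod (z : Multiset (Associates HH)) : val z.prod = (z.map val).sum := by
  induction z using Multiset.induction with
  | empty => simpa using val_one
  | cons a s ih => rw [Multiset.prod_cons, val_mul, ih, Multiset.map_cons, Multiset.sum_cons]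

theorem val_mem (x : Associates HH) : val x = 0 ∨ InI (val x) := by
  obtain ⟨a, rfl⟩ := Associates.mk_surjective x
  rw [val_mk]
  rcases a.2 with h | h
  · left
    have : a = 1 := Subtype.ext h
    rw [this, ex_one]
  · exact Or.inr h

/-- Atoms, in terms of exponents. -/
def Atom (v : Fin 4 → ℕ) : Prop :=
  InI v ∧ ∀ u w : Fin 4 → ℕ, InI u → InI w → u + w ≠ v

theorem atom_of_irreducible {x : Associates HH} (h : Irreducible x) : Atom (val x) := by
  refine ⟨?_, ?_⟩
  · rcases val_mem x with h0 | h0
    · exfalso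
      have : x = 1 := val_inj (by rw [h0, val_one])
      exact h.not_isUnit (this ▸ isUnit_one)
    · exact h0
  · intro u w hu hw huw
    have hx : x = Associates.mk (elt u hu) * Associates.mk (elt w hw) := by
      apply val_inj
      rw [val_mul, val_mk, val_mk, ex_elt, ex_elt, huw]
    rcases h.isUnit_or_isUnit hx with h1 | h1
    · rw [Associates.isUnit_iff_eq_one] at h1
      have h2 : val (Associates.mk (elt u hu)) = 0 := by rw [h1, val_one]
      rw [val_mk, ex_elt] at h2
      exact not_InI_zero (h2 ▸ hu)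
    · rw [Associates.isUnit_iff_eq_one] at h1
      have h2 : val (Associates.mk (elt w hw)) = 0 := by rw [h1, val_one]
      rw [val_mk, ex_elt] at h2
      exact not_InI_zero (h2 ▸ hw)

theorem irreducible_of_atom {x : Associates HH} (h : Atom (val x)) : Irreducible x := by
  refine ⟨?_, ?_⟩
  · intro h1
    rw [Associates.isUnit_iff_eq_one] at h1
    have h2 : val x = 0 := by rw [h1, val_one]
    exact not_InI_zero (h2 ▸ h.1)
  · intro p q hpq
    rcases val_mem p with hp | hp
    · left
      rw [Associates.isUnit_iff_eq_one]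
      exact val_inj (by rw [hp, val_one])
    · rcases val_mem q with hq | hq
      · right
        rw [Associates.isUnit_iff_eq_one]
        exact val_inj (by rw [hq, val_one])
      · exact absurd (by rw [← val_mul, ← hpq]) (h.2 _ _ hp hq)

/-! ### The four types of atoms -/

theorem atom_special_x (n : ℕ) : Atom ![n, 0, 0, 3] := by
  refine ⟨by simp [InI], ?_⟩
  intro u w hu hw h
  have h0 := congrFun h 0
  have h1 := congrFun h 1
  have h2 := congrFun h 2
  have h3 := congrFun h 3
  simp [InI] at *
  omega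

theorem atom_special_y (n : ℕ) : Atom ![0, n, 0, 3] := by
  refine ⟨by simp [InI], ?_⟩
  intro u w hu hw h
  have h0 := congrFun h 0
  have h1 := congrFun h 1
  have h2 := congrFun h 2
  have h3 := congrFun h 3
  simp [InI] at *
  omega

theorem atom_y : Atom ![0, 1, 3, 0] := by
  refine ⟨by simp [InI], ?_⟩
  intro u w hu hw h
  have h0 := congrFun h 0
  have h1 := congrFun h 1
  have h2 := congrFun h 2
  have h3 := congrFun h 3
  simp [InI] at *
  omega

theorem atom_x : Atom ![1, 0, 3, 0] := by
  refine ⟨by simp [InI], ?_⟩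
  intro u w hu hw h
  have h0 := congrFun h 0
  have h1 := congrFun h 1
  have h2 := congrFun h 2
  have h3 := congrFun h 3
  simp [InI] at *
  omega

/-- a vector with four given coordinates -/
theorem vec_eq {v : Fin 4 → ℕ} {a b c d : ℕ} (h0 : v 0 = a) (h1 : v 1 = b) (h2 : v 2 = c)
    (h3 : v 3 = d) : v = ![a, b, c, d] := by
  ext i
  fin_cases i <;> simp [*]

theorem atom_le {v : Fin 4 → ℕ} (h : Atom v) : v 2 + v 3 ≤ 3 := by
  by_contra hc
  push Not at hc
  -- split off a pure part of resource two
  obtain ⟨p, q, hp, hq, hpq⟩ : ∃ p q, p ≤ v 2 ∧ q ≤ v 3 ∧ p + q = 2 := by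
    by_cases h2 : 2 ≤ v 2
    · exact ⟨2, 0, h2, Nat.zero_le _, rfl⟩
    · exact ⟨v 2, 2 - v 2, le_refl _, by omega, by omega⟩
  refine h.2 ![0, 0, p, q] ![v 0, v 1, v 2 - p, v 3 - q] ?_ ?_ ?_
  · simp [InI]; omega
  · simp [InI]; omega
  · ext i
    fin_cases i <;> simp <;> omega

theorem atom_c {v : Fin 4 → ℕ} (h : Atom v) (h3 : v 2 + v 3 = 3) (hc : 1 ≤ v 2) :
    v 0 + v 1 ≤ 1 := by
  by_contra hx
  push Not at hx
  refine h.2 ![v 0, v 1, 1, 0] ![0, 0, v 2 - 1, v 3] ?_ ?_ ?_
  · simp [InI]; omega
  · simp [InI]; omega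
  · ext i
    fin_cases i <;> simp
    omega

theorem atom_d {v : Fin 4 → ℕ} (h : Atom v) (h3 : v 2 + v 3 = 3) (hd : 1 ≤ v 3) :
    v 0 = 0 ∨ v 1 = 0 := by
  by_contra hx
  push Not at hx
  refine h.2 ![v 0, v 1, 0, 1] ![0, 0, v 2, v 3 - 1] ?_ ?_ ?_
  · simp [InI]; omega
  · simp [InI]; omega
  · ext i
    fin_cases i <;> simp
    omega

/-! ### The factorizations of length `n + 1` of `(n, n, 3n, 3)` -/

theorem sum_coord (s : Multiset (Fin 4 → ℕ)) (i : Fin 4) :
    s.sum i = (s.map fun v => v i).sum := by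
  induction s using Multiset.induction with
  | empty => simp
  | cons a s ih => simp [ih]

theorem sum_le_mul {α : Type*} (f : α → ℕ) (k : ℕ) (s : Multiset α) (h : ∀ x ∈ s, f x ≤ k) :
    (s.map f).sum ≤ k * Multiset.card s := by
  induction s using Multiset.induction with
  | empty => simp
  | cons a s ih =>
    have h1 := ih fun x hx => h x (Multiset.mem_cons_of_mem hx)
    have h2 := h a (Multiset.mem_cons_self a s)
    rw [Multiset.map_cons, Multiset.sum_cons, Multiset.card_cons]
    linarith [mul_add k (Multiset.card s) 1]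

theorem eq_of_sum {α : Type*} (f : α → ℕ) (k : ℕ) (s : Multiset α) (h : ∀ x ∈ s, f x ≤ k)
    (hs : k * Multiset.card s ≤ (s.map f).sum) : ∀ x ∈ s, f x = k := by
  induction s using Multiset.induction with
  | empty => simp
  | cons a s ih =>
    have h1 := sum_le_mul f k s fun x hx => h x (Multiset.mem_cons_of_mem hx)
    have h2 := h a (Multiset.mem_cons_self a s)
    rw [Multiset.map_cons, Multiset.sum_cons, Multiset.card_cons] at hs
    have h3 := mul_add k (Multiset.card s) 1
    have h4 : f a = k := by omega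
    intro x hx
    rcases Multiset.mem_cons.1 hx with rfl | hx
    · exact h4
    · exact ih (fun x hx => h x (Multiset.mem_cons_of_mem hx)) (by omega) x hx

/-- the first factorization, in exponents -/
def Z1 (n : ℕ) : Multiset (Fin 4 → ℕ) := ![n, 0, 0, 3] ::ₘ Multiset.replicate n ![0, 1, 3, 0]

/-- the second factorization, in exponents -/
def Z2 (n : ℕ) : Multiset (Fin 4 → ℕ) := ![0, n, 0, 3] ::ₘ Multiset.replicate n ![1, 0, 3, 0]

theorem two_only {n : ℕ} (hn : 2 ≤ n) (s : Multiset (Fin 4 → ℕ)) (hs : ∀ v ∈ s, Atom v)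
    (hsum : s.sum = ![n, n, 3 * n, 3]) (hcard : Multiset.card s = n + 1) :
    s = Z1 n ∨ s = Z2 n := by
  have hc : ∀ i, (s.map fun v => v i).sum = ![n, n, 3 * n, 3] i := by
    intro i
    rw [← sum_coord, hsum]
  have hx := hc 0
  have hy := hc 1
  have hz := hc 2
  have hw := hc 3
  simp only [Matrix.cons_val] at hx hy hz hw
  have h3 : ∀ v ∈ s, v 2 + v 3 = 3 := by
    apply eq_of_sum (fun v : Fin 4 → ℕ => v 2 + v 3) 3 s (fun v hv => atom_le (hs v hv))
    rw [Multiset.sum_map_add, hz, hw, hcard]
    omega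
  obtain ⟨t, ht, ht2⟩ : ∃ t ∈ s, t 2 = 0 := by
    by_contra hno
    push Not at hno
    have h5 : ∀ v ∈ s, v 0 + v 1 ≤ 1 := fun v hv =>
      atom_c (hs v hv) (h3 v hv) (Nat.one_le_iff_ne_zero.2 (hno v hv))
    have h6 := sum_le_mul (fun v : Fin 4 → ℕ => v 0 + v 1) 1 s h5
    rw [Multiset.sum_map_add, hx, hy, hcard] at h6
    omega
  have ht3 : t 3 = 3 := by
    have := h3 t ht
    omega
  obtain ⟨s', rfl⟩ := Multiset.exists_cons_of_mem ht
  simp only [Multiset.map_cons, Multiset.sum_cons, Multiset.card_cons] at hx hy hz hw hcard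
  have hcard' : Multiset.card s' = n := by omega
  have hs' : ∀ v ∈ s', v 3 = 0 := by
    intro v hv
    have h5 : v 3 ≤ (s'.map fun v => v 3).sum :=
      Multiset.le_sum_of_mem (Multiset.mem_map_of_mem (fun v : Fin 4 → ℕ => v 3) hv)
    omega
  have hv2 : ∀ v ∈ s', v 2 = 3 := by
    intro v hv
    have h5 := h3 v (Multiset.mem_cons_of_mem hv)
    have h6 := hs' v hv
    omega
  have hxy : ∀ v ∈ s', v 0 + v 1 ≤ 1 := by
    intro v hv
    have h6 := hv2 v hv
    exact atom_c (hs v (Multiset.mem_cons_of_mem hv)) (h3 v (Multiset.mem_cons_of_mem hv))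
      (by omega)
  rcases atom_d (hs t ht) (h3 t ht) (by omega) with h0 | h1
  · right
    rw [h0, zero_add] at hx
    have h7 : ∀ v ∈ s', v 0 = 1 := by
      apply eq_of_sum (fun v : Fin 4 → ℕ => v 0) 1 s'
      · intro v hv
        have := hxy v hv
        omega
      · rw [hx, hcard']
        omega
    have h8 : s' = Multiset.replicate n ![1, 0, 3, 0] := by
      rw [Multiset.eq_replicate]
      refine ⟨hcard', fun v hv => vec_eq (h7 v hv) ?_ (hv2 v hv) (hs' v hv)⟩
      have := hxy v hv
      have := h7 v hv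
      omega
    have h9 : t 1 = n := by
      rw [h8] at hy
      simpa using hy
    rw [Z2, ← h8, vec_eq h0 h9 ht2 ht3]
  · left
    rw [h1, zero_add] at hy
    have h7 : ∀ v ∈ s', v 1 = 1 := by
      apply eq_of_sum (fun v : Fin 4 → ℕ => v 1) 1 s'
      · intro v hv
        have := hxy v hv
        omega
      · rw [hy, hcard']
        omega
    have h8 : s' = Multiset.replicate n ![0, 1, 3, 0] := by
      rw [Multiset.eq_replicate]
      refine ⟨hcard', fun v hv => vec_eq ?_ (h7 v hv) (hv2 v hv) (hs' v hv)⟩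
      have := hxy v hv
      have := h7 v hv
      omega
    have h9 : t 0 = n := by
      rw [h8] at hx
      simpa using hx
    rw [Z1, ← h8, vec_eq h9 h1 ht2 ht3]

/-- the class with given exponents -/
noncomputable def cls (v : Fin 4 → ℕ) (h : InI v) : Associates HH := Associates.mk (elt v h)

theorem val_cls (v : Fin 4 → ℕ) (h : InI v) : val (cls v h) = v := by
  rw [cls, val_mk, ex_elt]

/-- the element `a_n` -/
def an (n : ℕ) : HH := elt ![n, n, 3 * n, 3] (by simp [InI])

/-- the first factorization -/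
noncomputable def z1 (n : ℕ) : Multiset (Associates HH) :=
  cls ![n, 0, 0, 3] (atom_special_x n).1 ::ₘ Multiset.replicate n (cls ![0, 1, 3, 0] atom_y.1)

/-- the second factorization -/
noncomputable def z2 (n : ℕ) : Multiset (Associates HH) :=
  cls ![0, n, 0, 3] (atom_special_y n).1 ::ₘ Multiset.replicate n (cls ![1, 0, 3, 0] atom_x.1)

theorem map_z1 (n : ℕ) : (z1 n).map val = Z1 n := by
  simp [z1, Z1, val_cls]

theorem map_z2 (n : ℕ) : (z2 n).map val = Z2 n := by
  simp [z2, Z2, val_cls]

theorem card_z1 (n : ℕ) : Multiset.card (z1 n) = n + 1 := by simp [z1]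
theorem card_z2 (n : ℕ) : Multiset.card (z2 n) = n + 1 := by simp [z2]

theorem z1_mem (n : ℕ) : z1 n ∈ Z (an n) := by
  refine ⟨?_, ?_⟩
  · intro x hx
    rw [z1, Multiset.mem_cons] at hx
    rcases hx with rfl | hx
    · exact irreducible_of_atom (by rw [val_cls]; exact atom_special_x n)
    · rw [Multiset.eq_of_mem_replicate hx]
      exact irreducible_of_atom (by rw [val_cls]; exact atom_y)
  · apply val_inj
    rw [val_prod, map_z1, val_mk, an, ex_elt, Z1, Multiset.sum_cons, Multiset.sum_replicate]
    ext i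
    fin_cases i <;> simp [mul_comm]

theorem z2_mem (n : ℕ) : z2 n ∈ Z (an n) := by
  refine ⟨?_, ?_⟩
  · intro x hx
    rw [z2, Multiset.mem_cons] at hx
    rcases hx with rfl | hx
    · exact irreducible_of_atom (by rw [val_cls]; exact atom_special_y n)
    · rw [Multiset.eq_of_mem_replicate hx]
      exact irreducible_of_atom (by rw [val_cls]; exact atom_x)
  · apply val_inj
    rw [val_prod, map_z2, val_mk, an, ex_elt, Z2, Multiset.sum_cons, Multiset.sum_replicate]
    ext i
    fin_cases i <;> simp [mul_comm]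

theorem only_two {n : ℕ} (hn : 2 ≤ n) {z : Multiset (Associates HH)} (hz : z ∈ Z (an n))
    (hc : Multiset.card z = n + 1) : z = z1 n ∨ z = z2 n := by
  have hinj : Function.Injective (Multiset.map val) :=
    Multiset.map_injective fun x y h => val_inj h
  have h := two_only hn (z.map val) ?_ ?_ (by rw [Multiset.card_map, hc])
  · rcases h with h | h
    · exact Or.inl (hinj (by rw [h, map_z1]))
    · exact Or.inr (hinj (by rw [h, map_z2]))
  · intro v hv
    obtain ⟨x, hx, rfl⟩ := Multiset.mem_map.1 hv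
    exact atom_of_irreducible (hz.1 x hx)
  · rw [← val_prod, hz.2, val_mk, an, ex_elt]

theorem z_disjoint {n : ℕ} (hn : 2 ≤ n) : Disjoint (z1 n) (z2 n) := by
  rw [Multiset.disjoint_left]
  intro x hx hx'
  have h1 : val x ∈ Z1 n := by rw [← map_z1]; exact Multiset.mem_map_of_mem _ hx
  have h2 : val x ∈ Z2 n := by rw [← map_z2]; exact Multiset.mem_map_of_mem _ hx'
  rw [Z1, Multiset.mem_cons, Multiset.mem_replicate] at h1
  rw [Z2, Multiset.mem_cons, Multiset.mem_replicate] at h2
  have key : ∀ {a b : Fin 4 → ℕ}, val x = a → val x = b → ∀ i, a i = b i := by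
    intro a b ha hb i
    rw [← ha, hb]
  rcases h1 with h1 | ⟨_, h1⟩ <;> rcases h2 with h2 | ⟨_, h2⟩
  · have := key h1 h2 0
    simp at this
    omega
  · have := key h1 h2 2
    simp at this
  · have := key h1 h2 2
    simp at this
  · have := key h1 h2 0
    simp at this

theorem sub_of_disjoint {α : Type*} [DecidableEq α] {s t : Multiset α} (h : Disjoint s t) :
    s - t = s := by
  have h1 := Multiset.sub_add_inter s t
  rwa [Multiset.inter_eq_zero_iff_disjoint.2 h, add_zero] at h1

theorem fdist_z {n : ℕ} (hn : 2 ≤ n) : n + 1 ≤ fdist (z1 n) (z2 n) := by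
  have h := @sub_of_disjoint _ (fun a b => Classical.propDecidable (a = b)) _ _ (z_disjoint hn)
  have h2 := congrArg Multiset.card h
  rw [card_z1] at h2
  exact le_max_of_le_left h2.ge

theorem mono_const {r : ℕ} {f : ℕ → ℕ} (h : ∀ i < r, f i ≤ f (i + 1)) (hr : f 0 = f r) :
    ∀ i ≤ r, f i = f 0 := by
  have h1 : ∀ i ≤ r, f 0 ≤ f i := by
    intro i
    induction i with
    | zero => intro _; exact le_refl _
    | succ i ih => intro hi; exact (ih (by omega)).trans (h i (by omega))
  have h2 : ∀ j ≤ r, f (r - j) ≤ f r := by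
    intro j
    induction j with
    | zero => intro _; exact le_refl _
    | succ j ih =>
      intro hj
      have h3 := h (r - (j + 1)) (by omega)
      have h4 : r - (j + 1) + 1 = r - j := by omega
      rw [h4] at h3
      exact h3.trans (ih (by omega))
  intro i hi
  have h5 := h1 i hi
  have h6 := h2 (r - i) (by omega)
  have h7 : r - (r - i) = i := by omega
  rw [h7] at h6
  omega

theorem anti_const {r : ℕ} {f : ℕ → ℕ} (h : ∀ i < r, f (i + 1) ≤ f i) (hr : f 0 = f r) :
    ∀ i ≤ r, f i = f 0 := by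
  have h1 : ∀ i ≤ r, f i ≤ f 0 := by
    intro i
    induction i with
    | zero => intro _; exact le_refl _
    | succ i ih => intro hi; exact (h i (by omega)).trans (ih (by omega))
  have h2 : ∀ j ≤ r, f r ≤ f (r - j) := by
    intro j
    induction j with
    | zero => intro _; exact le_refl _
    | succ j ih =>
      intro hj
      have h3 := h (r - (j + 1)) (by omega)
      have h4 : r - (j + 1) + 1 = r - j := by omega
      rw [h4] at h3
      exact (ih (by omega)).trans h3
  intro i hi
  have h5 := h1 i hi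
  have h6 := h2 (r - i) (by omega)
  have h7 : r - (r - i) = i := by omega
  rw [h7] at h6
  omega

theorem chain_bound {n : ℕ} (hn : 2 ≤ n) {N : ℕ∞} (h : MonotoneChain (an n) N (z1 n) (z2 n)) :
    ((n + 1 : ℕ) : ℕ∞) ≤ N := by
  obtain ⟨r, c, h0, hr, hZ, hd, hm⟩ := h
  have hcard : ∀ i ≤ r, Multiset.card (c i) = n + 1 := by
    have he : Multiset.card (c 0) = Multiset.card (c r) := by rw [h0, hr, card_z1, card_z2]
    intro i hi
    rcases hm with hm | hm
    · have h1 := mono_const (f := fun i => Multiset.card (c i)) hm he i hi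
      rw [h1, h0, card_z1]
    · have h1 := anti_const (f := fun i => Multiset.card (c i)) hm he i hi
      rw [h1, h0, card_z1]
  have htwo : ∀ i ≤ r, c i = z1 n ∨ c i = z2 n := fun i hi => only_two hn (hZ i hi) (hcard i hi)
  have hne : z1 n ≠ z2 n := by
    intro he
    have h1 := fdist_z hn
    rw [he, fdist] at h1
    simp at h1
  -- the chain has to switch at some point
  by_contra hN
  have hall : ∀ i ≤ r, c i = z1 n := by
    intro i
    induction i with
    | zero => intro _; exact h0
    | succ i ih =>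
      intro hi
      rcases htwo (i + 1) hi with h1 | h1
      · exact h1
      · exfalso
        have h2 := hd i (by omega)
        rw [ih (by omega), h1] at h2
        exact hN (le_trans (by exact_mod_cast fdist_z hn) h2)
  exact hne ((hall r (le_refl r)).symm.trans hr)

theorem cEqAt_an {n : ℕ} (hn : 2 ≤ n) : ((n + 1 : ℕ) : ℕ∞) ≤ cEqAt (an n) := by
  apply le_sInf
  intro N hN
  exact chain_bound hn (hN _ (z1_mem n) _ (z2_mem n) (by rw [card_z1, card_z2]))

theorem cEq_top : cEq HH = ⊤ := by
  rw [ENat.eq_top_iff_forall_ge]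
  intro m
  calc (m : ℕ∞) ≤ ((m + 2 + 1 : ℕ) : ℕ∞) := by exact_mod_cast (by omega : m ≤ m + 2 + 1)
    _ ≤ cEqAt (an (m + 2)) := cEqAt_an (by omega)
    _ ≤ cEq HH := le_iSup (fun a : HH => cEqAt a) (an (m + 2))

theorem conductor_HH : IsConductorSubmonoid HH := by
  intro a ha f
  rcases a.2 with h | h
  · exfalso
    apply ha
    have : a = 1 := Subtype.ext h
    rw [this]
    exact isUnit_one
  · exact Or.inr (h.add _)

/-- **Theorem.** The free abelian monoid on four primes has a conductor submonoid whose equal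
catenary degree, and hence whose monotone catenary degree, is infinite. -/
theorem result : ∃ H : Submonoid (Multiplicative (Fin 4 → ℕ)),
    IsConductorSubmonoid H ∧ cEq H = ⊤ ∧ cMon H = ⊤ :=
  ⟨HH, conductor_HH, cEq_top, by rw [cMon, cEq_top]; exact top_sup_eq _⟩

end Pool.Agent.Results.MP_d1ccd0_al.InfiniteCatenary
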